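import Pool.Agent.Lib_MP_e9ccd1_s.ATransfer
import Pool.Agent.Lib_MP_e9ccd1_an.SpectralTight

/-!
# Closed curves with a planar curved arc are not tight-frame spectral

Let `γ` be a piecewise `C^1` closed curve in `ℝ^d` with finitely many self-intersections, of class `C^2` on some
interval `[a, b]`, such that the arc `γ([a, b])` lies in a two-dimensional affine plane but not on a line.
Nothing is assumed about the rest of the curve. Then the arc-length measure of `γ` is not tight-frame
spectral; in particular it is not spectral.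

Proof. Only the frame identity for windows is used: `∑_λ |∫_t^{t+l} e^{-2πi λ·γ}|² = A l`. Multiply by `l^{-2}` and
integrate over `l ∈ [1/X, L]`: the result is `A log (X L)` for every `t`. Project the frequencies to the plane. The
frequencies which are perpendicular to some tangent of a (slightly shorter) arc satisfy `∑ 1/|λ| < ∞` by a lower
bound for `∫ e^{-2πi λ·γ}` over the arc, and their contribution, averaged over `t`, is `o(log X)`. The other
frequencies contribute `(c0 + o(1)) / |λ·γ'(t)|` if `|λ| ≤ X`, and `O(1)` in total if `|λ| > X`. So the function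
`t ↦ ∑_{|λ| ≤ X} 1/|λ·γ'(t)|`, divided by `log X`, is asymptotically constant on the arc. But `u ↦ 1/|λ·u|` is strictly
convex along the circle: `1/|λ·u0| ≤ β (1/|λ·u₋| + 1/|λ·u₊|)/2` with `β = |u₋ + u₊|/2 < 1` if `u0` is the bisector of the
tangents `u₋ ≠ u₊`.
-/

set_option autoImplicit false

open MeasureTheory Pool.Agent.CurveSpec

namespace Pool.Agent.Results.MP_e9ccd1_an.PlanarArc

theorem result (d : ℕ) (L : ℝ) (γ : ℝ → EuclideanSpace ℝ (Fin d)) (hγ : ClosedCurve L γ)
    (a b : ℝ) (ha : 0 ≤ a) (hb : b ≤ L) (h2 : ContDiffOn ℝ 2 γ (Set.Icc a b))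
    (P : AffineSubspace ℝ (EuclideanSpace ℝ (Fin d))) (hP : Module.finrank ℝ P.direction ≤ 2)
    (hγP : ∀ t ∈ Set.Icc a b, γ t ∈ P) (hns : ¬ Collinear ℝ (γ '' Set.Icc a b)) :
    ¬ TightFrameSpectral (arcMeasure L γ) ∧ ¬ Spectral (arcMeasure L γ) :=
  have h := Pool.Agent.LoopSpec.not_tight_arc hγ ha hb h2 P hP hγP hns
  ⟨h, fun hs => h hs.tight⟩

end Pool.Agent.Results.MP_e9ccd1_an.PlanarArc
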