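import Pool.Agent.Lib_MP_e9ccd1_an.Transfer
import Pool.Agent.Lib_MP_e9ccd1_an.SpectralTight

/-!
# Arc-length measures of closed planar curves are not spectral

For every piecewise `C^1` closed curve with finitely many self-intersections which is contained in
a two-dimensional affine plane of `ℝ^d` (in particular for every such curve in `ℝ^2`), the
normalised arc-length measure is not tight-frame spectral, hence not spectral. Corners, cusps,
straight pieces and non-transverse self-intersections are allowed.

Sketch. Let `D = Σ_λ e^{2πi λ·x}`. The frame identity, polarised and integrated against a test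
function `Ψ` of `γ(s) - γ(t)` with the weight `det(γ'(t), γ'(s))` on a piece `[a, b]` of the curve
lying strictly above a chord with feet `γ(a), γ(b)`, gives by Green's theorem
`Σ_λ Ψ^(λ) = 0` for every `Ψ` supported near a point of the open segment from `0` to
`±(γ(b) - γ(a))`. A closed curve has such chords in every direction, with length bounded below,
so `D = 0` in a punctured ball around `0`. The growth bound `#{|λ - ξ| ≤ R} ≤ 32 A R` shows that `D`
has no part supported at `0`, so `D = 0` near `0`, which contradicts positivity.
-/

set_option autoImplicit false

open MeasureTheory Pool.Agent.CurveSpec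

namespace Pool.Agent.Results.MP_e9ccd1_an.PlanarCurves

theorem result (d : ℕ) (L : ℝ) (γ : ℝ → EuclideanSpace ℝ (Fin d)) (hγ : ClosedCurve L γ)
    (P : AffineSubspace ℝ (EuclideanSpace ℝ (Fin d))) (hP : Module.finrank ℝ P.direction = 2)
    (hγP : ∀ t ∈ Set.Icc 0 L, γ t ∈ P) :
    ¬ TightFrameSpectral (arcMeasure L γ) ∧ ¬ Spectral (arcMeasure L γ) :=
  have h := not_tight hγ P hP hγP
  ⟨h, fun hs => h hs.tight⟩

end Pool.Agent.Results.MP_e9ccd1_an.PlanarCurves
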