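import Pool.Agent.Lib_MP_e9ccd1_s.Final

/-!
# Closed curves in three-space without corners are not spectral

Let `γ` be a closed curve in `ℝ^d`, parametrised by arc length on `[0, L]`, with finitely many
self-intersections, contained in an affine subspace of dimension at most three, of class `C^1` on the closed
interval `[0, L]` (so a corner is allowed at one point, the base point `γ 0 = γ L`) and piecewise `C^3`. Then its
arc-length measure is not spectral.

Proof. Suppose it is; project to `ℝ^3`.
1. Every frequency `λ` has a critical point of `λ·γ` on `(0, L)`, and the frame identity for windows `[t, t+ℓ]` gives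
`∑_{r ≤ |λ| ≤ ε r²} 1/|λ| ≤ K`: the frequencies are sparse.
2. At a point `t` of an arc with torsion a bounded part of the energy of a window of length `1/R` is carried by
frequencies much larger than `R`; those with a nondegenerate critical point near `t` are negligible, so some sequence
of frequencies tends to infinity in the binormal direction `θ = b(t)`.
3. Orthogonality of these exponentials to a fixed one and stationary phase give, for almost every `t`, a relation
`∑_z a_z e_λ(γ z) = 0`, for all `λ`, between the evaluations at the critical points `z` of `θ·γ`; the coefficient of a
nondegenerate critical point is not zero, and there is one since `γ` is closed. But evaluations at finitely many points off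
a null set are linearly independent on the span of the exponentials, because the exponentials are complete. For
almost every `t` all critical points are off this null set: contradiction. So the torsion vanishes wherever the
curvature does not, and some arc is planar.
4. An arc which is planar and not straight is impossible (as in `PlanarArc`), and a `C^1` curve all of whose arcs are
straight is a segment, so it is not closed.
-/

set_option autoImplicit false

open MeasureTheory Pool.Agent.CurveSpec

namespace Pool.Agent.Results.MP_e9ccd1_an.SpaceCurves

theorem result (d : ℕ) (L : ℝ) (γ : ℝ → EuclideanSpace ℝ (Fin d)) (hγ : ClosedCurve L γ)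
    (h1 : ContDiffOn ℝ 1 γ (Set.Icc 0 L))
    (h3 : ∃ (n : ℕ) (τ : ℕ → ℝ), τ 0 = 0 ∧ τ n = L ∧ ∀ k < n, τ k < τ (k + 1) ∧
      ContDiffOn ℝ 3 γ (Set.Icc (τ k) (τ (k + 1))))
    (P : AffineSubspace ℝ (EuclideanSpace ℝ (Fin d))) (hP : Module.finrank ℝ P.direction ≤ 3)
    (hγP : ∀ t ∈ Set.Icc 0 L, γ t ∈ P) : ¬ Spectral (arcMeasure L γ) :=
  Pool.Agent.LoopSpec.not_spectral hγ h1 h3 P hP hγP

end Pool.Agent.Results.MP_e9ccd1_an.SpaceCurves
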